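import Pool.Agent.Lib.MP_009209_ag.Block

namespace Pool.Agent.Results.MP_009209_ag.InducedBlocks

open Matrix Pool.Agent.MP_009209

/-- Let `ρ` be a rigid semisimple representation of a finitely generated group `Γ`, and let `V i` be
independent subspaces which `Γ` permutes. The stabiliser `H` of a nonzero `V i` has finite index
and a finite abelianization, and the representation of `H` on `V i` is again rigid and
semisimple. The span of the orbit of `V i` is the representation induced from `H`. -/
theorem result {Γ : Type*} [Group Γ] [Group.FG Γ] {n : ℕ} (ρ : Γ →* GL (Fin n) ℂ)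
    (hr : Rigid ρ) (hs : Semisimple ρ) {I : Type*} [MulAction Γ I]
    (V : I → Submodule ℂ (Fin n → ℂ)) (hind : iSupIndep V)
    (hperm : ∀ (γ : Γ) (i : I), ∀ v ∈ V i, (ρ γ : Matrix (Fin n) (Fin n) ℂ) *ᵥ v ∈ V (γ • i))
    (i : I) (hi : V i ≠ ⊥) :
    (MulAction.stabilizer Γ i).FiniteIndex ∧
      Finite (Abelianization (MulAction.stabilizer Γ i)) ∧
      ∀ (m : ℕ) (σ : MulAction.stabilizer Γ i →* GL (Fin m) ℂ),
        ActsAs ρ (MulAction.stabilizer Γ i) (V i) σ → Rigid σ ∧ Semisimple σ := by
  obtain ⟨h1, h2⟩ := finite_ab_stab' hr hs V hind hperm i hi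
  exact ⟨h1, h2, fun m σ hσ => block_rigid hr hs V hind hperm i hi σ hσ⟩

end Pool.Agent.Results.MP_009209_ag.InducedBlocks
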