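import Pool.Agent.Lib.MP_009209_ag.Reduce

namespace Pool.Agent.Results.MP_009209_ag.PrimitiveReduction

open Matrix Pool.Agent.MP_009209

universe u

/-- Every rigid semisimple representation of a finitely generated group is in the smallest class
which contains the rigid, semisimple, primitive and tensor-indecomposable representations of
finitely generated groups with a finite abelianization and which is closed under tensor products,
direct sums and induction from subgroups of finite index. -/
theorem result (Γ : Type u) [Group Γ] [Group.FG Γ] (n : ℕ) (ρ : Γ →* GL (Fin n) ℂ)
    (hr : Rigid ρ) (hs : Semisimple ρ) : Gen Γ n ρ :=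
  gen_of_rigid n Γ ρ hr hs

end Pool.Agent.Results.MP_009209_ag.PrimitiveReduction
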