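import Pool.Agent.Lib.MP_009209_ag.VSolv

namespace Pool.Agent.Results.MP_009209_ag.SolvableRadical

open Matrix Pool.Agent.MP_009209

/-- Let `ρ` be a rigid semisimple representation of a finitely generated group `Γ`. If `N` is a
normal subgroup and `ρ(N)` is virtually solvable, then `ρ(N)` is finite. -/
theorem result {Γ : Type*} [Group Γ] [Group.FG Γ] {n : ℕ} (ρ : Γ →* GL (Fin n) ℂ)
    (hr : Rigid ρ) (hs : Semisimple ρ) (N : Subgroup Γ) [N.Normal]
    (A : Subgroup (N.map ρ)) [A.FiniteIndex] [Group.IsSolvable A] : Finite (N.map ρ) :=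
  vsolv hr hs N A

end Pool.Agent.Results.MP_009209_ag.SolvableRadical
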