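import Pool.Agent.Lib.MP_009209_ag.Reduce

namespace Pool.Agent.Results.MP_009209_ag.TensorFactors

open Matrix Pool.Agent.MP_009209

/-- If a rigid semisimple representation of positive dimension of a finitely generated group is
isomorphic to a tensor product `σ ⊗ τ`, then `σ` and `τ` are rigid and semisimple. -/
theorem result {Γ : Type*} [Group Γ] [Group.FG Γ] {n a b : ℕ} (hn : n ≠ 0)
    (ρ : Γ →* GL (Fin n) ℂ) (σ : Γ →* GL (Fin a) ℂ) (τ : Γ →* GL (Fin b) ℂ)
    (h : IsTensor ρ σ τ) (hr : Rigid ρ) (hs : Semisimple ρ) :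
    (Rigid σ ∧ Semisimple σ) ∧ (Rigid τ ∧ Semisimple τ) := by
  have hab := tensor_dim h
  have ha : a ≠ 0 := by
    rintro rfl
    exact hn (by rw [hab, zero_mul])
  have hb : b ≠ 0 := by
    rintro rfl
    exact hn (by rw [hab, mul_zero])
  exact ⟨⟨tensor_rigid hr h hb, tensor_semisimple hs h hb⟩,
    tensor_rigid hr h.symm ha, tensor_semisimple hs h.symm ha⟩

end Pool.Agent.Results.MP_009209_ag.TensorFactors
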